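import Pool.Agent.Helper22_Men.Stmts

/-!
# Squad MEN, module R0
-/

open MeasureTheory Set

namespace Pool.Agent.Men.RR.H59

theorem r0 (hStar : StarStmt) : R0Stmt := by
  intro I Λ _ _ _ _ F hF hdep p s hp B hB
  obtain ⟨b0, hb0⟩ := hB.nonempty
  let y0 : Pt ℕ Λ := fun _ _ => 0
  haveI : Countable (↥B)ᵒᵈ := inferInstanceAs (Countable ↥B)
  obtain ⟨s1, hs1, r1, -, D, hD, hdec⟩ := hStar I (↥B)ᵒᵈ
    (fun k => {x | (y0, x) ∈ F (OrderDual.ofDual k).1})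
    (fun k => measurable_prodMk_left (hF _)) (OrderDual.toDual ⟨b0, hb0⟩) s
  have hy : ∀ k y x, ((y, x) ∈ F k ↔ (y0, x) ∈ F k) := fun k y x =>
    hdep k y y0 x (fun i hi => (Set.notMem_empty i hi).elim)
  have hinf : ((fun d : (↥B)ᵒᵈ => (OrderDual.ofDual d).1) '' D).Infinite := by
    intro hfin
    obtain ⟨M, hM⟩ := hfin.bddAbove
    obtain ⟨r, hrB, hr⟩ := hB.exists_gt (max M (OrderDual.ofDual r1).1)
    obtain ⟨d, hdD, hd⟩ := hD (OrderDual.toDual ⟨r, hrB⟩) (by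
      change (OrderDual.ofDual r1) ≤ (⟨r, hrB⟩ : ↥B)
      exact Subtype.coe_le_coe.1 (le_of_lt (lt_of_le_of_lt (le_max_right _ _) hr)))
    have h1 : (⟨r, hrB⟩ : ↥B) ≤ OrderDual.ofDual d := hd
    have h2 : r ≤ (OrderDual.ofDual d).1 := h1
    have h3 : (OrderDual.ofDual d).1 ≤ M := hM ⟨d, hdD, rfl⟩
    have h4 := lt_of_le_of_lt (le_max_left M _) hr
    omega
  refine ⟨p, le_refl p, hp, s1, hs1, _, ?_, hinf, ?_⟩
  · rintro _ ⟨d, -, rfl⟩
    exact (OrderDual.ofDual d).2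
  · rcases hdec with h | h
    · refine ⟨true, ?_⟩
      rintro _ ⟨d, hd, rfl⟩ y - x hx
      have : (y0, x) ∈ F (OrderDual.ofDual d).1 := h d hd hx
      simp only [iff_true]
      exact (hy _ y x).2 this
    · refine ⟨false, ?_⟩
      rintro _ ⟨d, hd, rfl⟩ y - x hx
      have : (y0, x) ∉ F (OrderDual.ofDual d).1 := fun h' =>
        Set.disjoint_left.1 (h d hd) hx h'
      simp only [Bool.false_eq_true, iff_false]
      exact fun h' => this ((hy _ y x).1 h')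

theorem reapc (hR0 : R0Stmt) (hPre : PreStmt) (hMils : MilsStmt) (hMill : MillStmt)
    (hLow : LowStmt) : ReapcStmt := by
  intro I Λ _ _ _ _ _
  refine hLow Λ (fun J => Reap I Λ J) (hR0 I Λ) ?_ ?_
  · intro δ hδ F hF hdep p s hp B hB
    obtain ⟨s1, hs1, μ, N, 𝓑, P1, hP1, b1, hb1, hpre⟩ := hPre I Λ (Iic δ) (isLowerSet_Iic δ)
      (fun _ => δ) (fun _ => self_mem_Iic) (fun _ => hδ) F hF hdep p s hp B hB
    obtain ⟨p', hp', hbel, B', hB', hinf, hsub⟩ := hMils Λ N δ (Wf F s1 μ) 𝓑 P1 b1 hpre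
    exact ⟨p', le_trans hp' hP1, hbel, s1, hs1, B', hB'.trans hb1, hinf, μ,
      fun k hk y hy x hx => hsub k hk hy x hx⟩
  · intro j hj hlt F hF hdep p s hp B hB
    obtain ⟨s1, hs1, μ, N, 𝓑, P1, hP1, b1, hb1, hpre⟩ := hPre I Λ (⋃ n, Iio (j n))
      (isLowerSet_iUnion fun n => isLowerSet_Iio (j n)) j
      (fun n => Set.mem_iUnion.2 ⟨n + 1, hj (Nat.lt_succ_self n)⟩) hlt F hF hdep p s hp B hB
    obtain ⟨p', hp', hbel, B', hB', hinf, hsub⟩ := hMill Λ N j (Wf F s1 μ) 𝓑 P1 b1 hj hpre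
    exact ⟨p', le_trans hp' hP1, hbel, s1, hs1, B', hB'.trans hb1, hinf, μ,
      fun k hk y hy x hx => hsub k hk hy x hx⟩

end Pool.Agent.Men.RR.H59
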